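import Pool.Agent.Q120.ME.Stm

/-!
# Job FIN of project ME
-/

set_option autoImplicit false

namespace Pool.Agent.Q24.ME

open Finset MeasureTheory Filter Pool.Agent.Q120.ET Pool.Agent.Q120.ME
open scoped Topology

lemma bern_eq (p : ℕ → ℝ) {F T : Finset ℕ} (hT : T ⊆ F) :
    bern p F T = (∏ n ∈ T, p n) * ∏ n ∈ F \ T, (1 - p n) := by
  classical
  unfold bern
  rw [← Finset.prod_sdiff hT, mul_comm]
  congr 1
  · exact Finset.prod_congr rfl (fun n hn => by rw [if_pos hn])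
  · exact Finset.prod_congr rfl (fun n hn => by rw [if_neg (mem_sdiff.1 hn).2])

lemma sum_bern_below (p : ℕ → ℝ) (F : Finset ℕ) (N : ℕ) :
    ∑ T ∈ F.powerset with ∀ n ∈ T, n < N, bern p F T = ∏ n ∈ F, if n < N then 1 else 1 - p n := by
  classical
  have h1 := Finset.prod_add (fun n => if n < N then p n else 0) (fun n => 1 - p n) F
  have h2 : ∏ n ∈ F, ((if n < N then p n else 0) + (1 - p n)) =
      ∏ n ∈ F, if n < N then 1 else 1 - p n := by
    refine Finset.prod_congr rfl (fun n _ => ?_)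
    split_ifs <;> ring
  rw [← h2, h1, Finset.sum_filter]
  refine Finset.sum_congr rfl (fun T hT => ?_)
  have hT := mem_powerset.1 hT
  split_ifs with h
  · rw [bern_eq p hT]
    congr 1
    exact Finset.prod_congr rfl (fun n hn => by rw [if_pos (h n hn)])
  · push Not at h
    obtain ⟨n, hn, hN⟩ := h
    rw [Finset.prod_eq_zero hn, zero_mul]
    rw [if_neg (not_lt.2 hN)]

lemma prod_below_le (p : ℕ → ℝ) (F : Finset ℕ) (N : ℕ) (hp : ∀ n ∈ F, p n < 1) :
    ∏ n ∈ F, (if n < N then 1 else 1 - p n) ≤ Real.exp (-∑ n ∈ F with ¬ n < N, p n) := by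
  classical
  rw [Finset.sum_filter, ← Finset.sum_neg_distrib, Real.exp_sum]
  refine Finset.prod_le_prod (fun n hn => ?_) (fun n hn => ?_)
  · split_ifs
    · norm_num
    · linarith [hp n hn]
  · split_ifs
    · simp
    · exact Real.one_sub_le_exp_neg _

lemma mem_ind {U : Set ℕ} {x n : ℕ} : n ∈ ind U x ↔ n < x ∧ n ∈ U := by
  classical
  unfold ind
  rw [mem_filter, mem_range]

lemma mass_sub (U : Set ℕ) (p : ℕ → ℝ) {N x : ℕ} (h : N ≤ x) :
    ∑ n ∈ ind U x with ¬ n < N, p n = mass U p x - mass U p N := by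
  classical
  have h1 := Finset.sum_filter_add_sum_filter_not (ind U x) (fun n => n < N) p
  have h2 : (ind U x).filter (fun n => n < N) = ind U N := by
    ext n
    rw [mem_filter, mem_ind, mem_ind]
    constructor
    · rintro ⟨⟨_, hU⟩, hN⟩
      exact ⟨hN, hU⟩
    · rintro ⟨hN, hU⟩
      exact ⟨⟨by omega, hU⟩, hN⟩
  rw [h2] at h1
  unfold mass
  linarith

lemma fin_N (hEVT : J_EVT) (U : Set ℕ) (p : ℕ → ℝ) (δ : ℝ) (hR : Rates U p)
    (Ω : Type) [MeasurableSpace Ω] (μ : Measure Ω) [IsProbabilityMeasure μ] (A : Ω → Set ℕ)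
    (hA : IsRandomSet A)
    (hD : ∀ ε : ℝ, 0 < ε → ∀ᶠ x : ℕ in atTop, relEnt p μ A (ind U x) ≤ (δ + ε) * mass U p x)
    (N : ℕ) : μ.real {ω | ∀ n ∈ A ω, n ∈ U → n < N} ≤ δ := by
  classical
  by_contra hlt
  push Not at hlt
  set P := μ.real {ω | ∀ n ∈ A ω, n ∈ U → n < N} with hP
  have hev := hD ((P - δ) / 2) (by linarith)
  have hbig := hR.div.eventually (eventually_gt_atTop ((P * mass U p N + Real.log 2) / ((P - δ) / 2)))
  obtain ⟨x, hx1, hx2, hx3⟩ := (hev.and (hbig.and (eventually_ge_atTop N))).exists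
  have hF : ∀ n ∈ ind U x, 0 < p n ∧ p n < 1 := fun n hn =>
    ⟨hR.pos n (mem_ind.1 hn).2, hR.lt_one n (mem_ind.1 hn).2⟩
  have h1 := (hEVT p (ind U x) hF Ω μ A hA).2 (fun T => ∀ n ∈ T, n < N)
    (mass U p x - mass U p N) (by
      rw [sum_bern_below, ← mass_sub U p hx3]
      exact prod_below_le p _ N (fun n hn => (hF n hn).2))
  have h2 : P ≤ μ.real {ω | ∀ n ∈ tr A (ind U x) ω, n < N} := by
    rw [hP]
    refine measureReal_mono ?_
    intro ω hω n hn
    rw [mem_tr, mem_ind] at hn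
    exact hω n hn.2 hn.1.2
  have h3 : 0 ≤ mass U p x - mass U p N := by
    rw [← mass_sub U p hx3]
    exact Finset.sum_nonneg (fun n hn => (hF n (mem_filter.1 hn).1).1.le)
  have h4 : P * (mass U p x - mass U p N) ≤ (δ + (P - δ) / 2) * mass U p x + Real.log 2 := by
    have := mul_le_mul_of_nonneg_right h2 h3
    linarith
  have h5 : (P * mass U p N + Real.log 2) < (P - δ) / 2 * mass U p x := by
    rw [div_lt_iff₀ (by linarith)] at hx2
    linarith
  nlinarith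

/-- **Job FIN.** -/
theorem t_FIN (hEVT : J_EVT) : J_FIN := by
  intro U p δ hR hδ Ω _ μ _ A hA hD
  have h1 : {ω | ∃ N : ℕ, ∀ n ∈ A ω, n ∈ U → n < N} = ⋃ N : ℕ, {ω | ∀ n ∈ A ω, n ∈ U → n < N} := by
    ext ω
    simp
  have hmono : Monotone (fun N : ℕ => {ω | ∀ n ∈ A ω, n ∈ U → n < N}) := by
    intro N M hNM ω hω n hn hU
    exact lt_of_lt_of_le (hω n hn hU) hNM
  have h2 := tendsto_measure_iUnion_atTop (μ := μ) hmono
  have h3 : Tendsto (fun N : ℕ => μ.real {ω | ∀ n ∈ A ω, n ∈ U → n < N}) atTop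
      (𝓝 (μ.real (⋃ N : ℕ, {ω | ∀ n ∈ A ω, n ∈ U → n < N}))) := by
    have := (ENNReal.tendsto_toReal (measure_ne_top μ (⋃ N : ℕ, {ω | ∀ n ∈ A ω, n ∈ U → n < N}))).comp h2
    exact this
  rw [h1]
  exact le_of_tendsto' h3 (fun N => fin_N hEVT U p δ hR Ω μ A hA hD N)

end Pool.Agent.Q24.ME
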