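import Pool.Agent.Q120.ME.Stm
import Pool.Agent.Erdos456.Mertens

/-!
# Job WAG of project ME
-/

set_option autoImplicit false

namespace Pool.Agent.Q24.ME

open Finset Filter Pool.Agent.Q120.ME
open scoped Topology

noncomputable def cc : ℝ := Real.exp Real.eulerMascheroniConstant / Real.log 2

lemma cc_pos : 0 < cc := div_pos (Real.exp_pos _) (Real.log_pos (by norm_num))

lemma wag_eq (n : ℕ) : wag n = min (1 / 2) (cc * Real.log n / n) := rfl

lemma tend0 : Tendsto (fun n : ℕ => cc * Real.log n / n) atTop (𝓝 0) := by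
  have h1 : Tendsto (fun x : ℝ => Real.log x / x) atTop (𝓝 0) :=
    Real.isLittleO_log_id_atTop.tendsto_div_nhds_zero
  have h2 := (h1.comp tendsto_natCast_atTop_atTop).const_mul cc
  rw [mul_zero] at h2
  refine h2.congr (fun n => ?_)
  simp only [Function.comp_apply]
  ring

lemma mass_eq (f : ℕ → ℝ) (x : ℕ) :
    mass {n | n.Prime} f x = ∑ n ∈ (range x).filter Nat.Prime, f n := by
  unfold mass
  refine Finset.sum_congr ?_ (fun _ _ => rfl)
  ext n
  simp [ind]

lemma mass_near : ∃ C : ℝ, ∀ x : ℕ, 2 ≤ x →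
    |mass {n | n.Prime} wag x - cc * Real.log x| ≤ C := by
  obtain ⟨C, hC⟩ := Pool.Agent.Erdos456.Mert.mertens_log
  obtain ⟨n0, hn0⟩ := eventually_atTop.1 (tend0.eventually (gt_mem_nhds (show (0 : ℝ) < 1 / 2 by norm_num)))
  refine ⟨(∑ n ∈ range n0, |wag n - cc * Real.log n / n|) + cc * (C + 1), fun x hx => ?_⟩
  rw [mass_eq]
  set s := (range x).filter Nat.Prime with hs
  have h1 : |∑ n ∈ s, wag n - cc * ∑ n ∈ s, Real.log n / n| ≤
      ∑ n ∈ range n0, |wag n - cc * Real.log n / n| := by
    have e1 : ∑ n ∈ s, wag n - cc * ∑ n ∈ s, Real.log n / n =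
        ∑ n ∈ s, (wag n - cc * Real.log n / n) := by
      rw [Finset.sum_sub_distrib, Finset.mul_sum]
      congr 1
      refine Finset.sum_congr rfl (fun n _ => by ring)
    rw [e1]
    refine (Finset.abs_sum_le_sum_abs _ _).trans ?_
    rw [← Finset.sum_filter_of_ne (p := fun n => n < n0)]
    · refine Finset.sum_le_sum_of_subset_of_nonneg ?_ (fun _ _ _ => abs_nonneg _)
      intro n hn
      exact mem_range.2 (mem_filter.1 hn).2
    · intro n _ hne
      by_contra hlt
      apply hne
      have := hn0 n (not_lt.1 hlt)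
      rw [wag_eq, min_eq_right this.le, sub_self, abs_zero]
  have h2 : |∑ n ∈ s, Real.log n / n - Real.log x| ≤ C + 1 := by
    have e2 : s = (Icc 1 (x - 1)).filter Nat.Prime := by
      ext n
      rw [hs, mem_filter, mem_filter, mem_range, mem_Icc]
      constructor
      · rintro ⟨h, hp⟩
        exact ⟨⟨hp.one_lt.le, by omega⟩, hp⟩
      · rintro ⟨⟨_, h⟩, hp⟩
        exact ⟨by omega, hp⟩
    have h3 := hC (x - 1) (by omega)
    rw [← e2] at h3
    have h4 : |Real.log ((x - 1 : ℕ) : ℝ) - Real.log x| ≤ 1 := by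
      have hx1 : (0 : ℝ) < ((x - 1 : ℕ) : ℝ) := by
        have : 0 < x - 1 := by omega
        exact_mod_cast this
      have hx2 : (0 : ℝ) < x := by
        have : 0 < x := by omega
        exact_mod_cast this
      have h5 : Real.log ((x - 1 : ℕ) : ℝ) ≤ Real.log x :=
        Real.log_le_log hx1 (by exact_mod_cast (Nat.sub_le x 1))
      have h6 : Real.log x ≤ Real.log ((x - 1 : ℕ) : ℝ) + Real.log 2 := by
        rw [← Real.log_mul hx1.ne' (by norm_num)]
        refine Real.log_le_log hx2 ?_
        have : x ≤ (x - 1) * 2 := by omega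
        exact_mod_cast this
      have h7 : Real.log 2 < 1 := by
        have := Real.log_two_lt_d9
        linarith
      rw [abs_le]
      constructor <;> linarith
    calc |∑ n ∈ s, Real.log n / n - Real.log x|
        = |(∑ n ∈ s, Real.log n / n - Real.log ((x - 1 : ℕ) : ℝ)) +
          (Real.log ((x - 1 : ℕ) : ℝ) - Real.log x)| := by ring_nf
      _ ≤ _ := abs_add_le _ _
      _ ≤ C + 1 := add_le_add h3 h4
  calc |∑ n ∈ s, wag n - cc * Real.log x|
      = |(∑ n ∈ s, wag n - cc * ∑ n ∈ s, Real.log n / n) +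
        cc * (∑ n ∈ s, Real.log n / n - Real.log x)| := by ring_nf
    _ ≤ _ := abs_add_le _ _
    _ ≤ _ := by
      rw [abs_mul, abs_of_pos cc_pos]
      exact add_le_add h1 (mul_le_mul_of_nonneg_left h2 cc_pos.le)

lemma log_tend : Tendsto (fun x : ℕ => Real.log x) atTop atTop :=
  Real.tendsto_log_atTop.comp tendsto_natCast_atTop_atTop

lemma mass_lim : Tendsto (fun x : ℕ => mass {n | n.Prime} wag x / Real.log x) atTop (𝓝 cc) := by
  obtain ⟨C, hC⟩ := mass_near
  have h1 : Tendsto (fun x : ℕ => (mass {n | n.Prime} wag x - cc * Real.log x) / Real.log x)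
      atTop (𝓝 0) := by
    refine squeeze_zero_norm' (a := fun x : ℕ => C / Real.log x) ?_ ?_
    · filter_upwards [eventually_ge_atTop 2] with x hx
      have hl : 0 < Real.log x := Real.log_pos (by exact_mod_cast hx)
      rw [Real.norm_eq_abs, abs_div, abs_of_pos hl]
      exact div_le_div_of_nonneg_right (hC x hx) hl.le
    · exact tendsto_const_nhds.div_atTop log_tend
  have h2 := h1.add_const cc
  rw [zero_add] at h2
  refine h2.congr' ?_
  filter_upwards [eventually_ge_atTop 2] with x hx
  have hl : 0 < Real.log x := Real.log_pos (by exact_mod_cast hx)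
  field_simp
  ring

lemma rates : Rates {n | n.Prime} wag where
  pos := by
    intro n hn
    have hn : n.Prime := hn
    rw [wag_eq]
    refine lt_min (by norm_num) ?_
    have h1 : 0 < Real.log n := Real.log_pos (by exact_mod_cast hn.one_lt)
    have h2 : (0 : ℝ) < n := by exact_mod_cast hn.pos
    have := cc_pos
    positivity
  lt_one := by
    intro n _
    rw [wag_eq]
    exact (min_le_left _ _).trans_lt (by norm_num)
  small := by
    intro ε hε
    filter_upwards [tend0.eventually (gt_mem_nhds hε)] with n hn _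
    rw [wag_eq]
    exact (min_le_right _ _).trans_lt hn
  div := by
    have h1 := mass_lim.pos_mul_atTop cc_pos log_tend
    refine h1.congr' ?_
    filter_upwards [eventually_ge_atTop 2] with x hx
    have hl : 0 < Real.log x := Real.log_pos (by exact_mod_cast hx)
    field_simp

/-- **Job WAG.** -/
theorem t_WAG : J_WAG := ⟨rates, mass_lim⟩

end Pool.Agent.Q24.ME
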